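import Pool.Agent.P8H62.FD.Peak

/-!
# Graphs in which each closed neighbourhood contains the closed neighbourhood of a vertex of minimum degree
-/

set_option autoImplicit false
set_option linter.all false

open Finset

namespace Pool.Agent.P8H62.FD

/-- `u` is in the closed neighbourhood of `v` -/
def InN {V : Type} (G : SimpleGraph V) (v u : V) : Prop := u = v ∨ G.Adj v u

/-- The closed neighbourhood of each vertex `v` contains the closed neighbourhood of some vertex `s` of
degree `δ`. -/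
def IsNested {V : Type} (G : SimpleGraph V) (δ : ℕ) : Prop :=
  ∀ v, ∃ s, (G.neighborSet s).ncard = δ ∧ ∀ u, InN G s u → InN G v u

/-- The graph in which two vertices are adjacent if they are in the closed neighbourhood of one vertex
of degree `δ`. -/
def sq {V : Type} (G : SimpleGraph V) (δ : ℕ) : SimpleGraph V where
  Adj x y := x ≠ y ∧ ∃ s, (G.neighborSet s).ncard = δ ∧ InN G s x ∧ InN G s y
  symm := ⟨fun x y h => ⟨h.1.symm, by
    obtain ⟨s, hs, h1, h2⟩ := h.2
    exact ⟨s, hs, h2, h1⟩⟩⟩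
  loopless := ⟨fun x h => h.1 rfl⟩

/-- `k` sets of at most `m` elements which cover `k * m` elements have `m` elements and are disjoint -/
theorem tight {V : Type} [DecidableEq V] {k m : ℕ} (t : Finset V) (ht : t.card ≤ k)
    (c : V → Finset (Fin (k * m))) (hc : ∀ u ∈ t, (c u).card ≤ m)
    (hcov : ∀ i, ∃ u ∈ t, i ∈ c u) :
    (∀ u ∈ t, (c u).card = m) ∧ ∀ u ∈ t, ∀ u' ∈ t, u ≠ u' → Disjoint (c u) (c u') := by
  classical
  have h1 : ∀ u ∈ t, (c u).card = m := by
    intro u hu
    have h2 : (univ : Finset (Fin (k * m))) ⊆ c u ∪ (t.erase u).biUnion c := by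
      intro i _
      obtain ⟨u', hu', hi⟩ := hcov i
      by_cases h : u' = u
      · rw [h] at hi
        exact mem_union_left _ hi
      · exact mem_union_right _ (mem_biUnion.2 ⟨u', mem_erase.2 ⟨h, hu'⟩, hi⟩)
    have h3 := card_le_card h2
    rw [card_univ, Fintype.card_fin] at h3
    have h4 : ((t.erase u).biUnion c).card ≤ (k - 1) * m := by
      refine card_biUnion_le.trans ((sum_le_card_nsmul _ _ m fun a ha =>
        hc a (mem_of_mem_erase ha)).trans ?_)
      rw [smul_eq_mul, card_erase_of_mem hu]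
      exact Nat.mul_le_mul_right _ (by omega)
    have h5 := card_union_le (c u) ((t.erase u).biUnion c)
    have h6 := hc u hu
    have hk : 1 ≤ k := le_trans (Nat.succ_le_of_lt (Finset.card_pos.2 ⟨u, hu⟩)) ht
    obtain ⟨l, rfl⟩ : ∃ l, k = l + 1 := ⟨k - 1, by omega⟩
    have h7 : l * m + m ≤ (l + 1) * m := by rw [add_mul, one_mul]
    have h8 := h7.trans h3
    rw [show l + 1 - 1 = l by omega] at h4
    omega
  refine ⟨h1, fun u hu u' hu' hne => ?_⟩
  have hu'' : u' ∈ t.erase u := mem_erase.2 ⟨hne.symm, hu'⟩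
  have h2 : (univ : Finset (Fin (k * m))) ⊆ (c u ∪ c u') ∪ ((t.erase u).erase u').biUnion c := by
    intro i _
    obtain ⟨w, hw, hi⟩ := hcov i
    by_cases h : w = u
    · rw [h] at hi
      exact mem_union_left _ (mem_union_left _ hi)
    · by_cases h' : w = u'
      · rw [h'] at hi
        exact mem_union_left _ (mem_union_right _ hi)
      · exact mem_union_right _ (mem_biUnion.2 ⟨w, mem_erase.2 ⟨h', mem_erase.2 ⟨h, hw⟩⟩, hi⟩)
  have h3 := card_le_card h2
  rw [card_univ, Fintype.card_fin] at h3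
  have h4 : (((t.erase u).erase u').biUnion c).card ≤ (k - 2) * m := by
    refine card_biUnion_le.trans ((sum_le_card_nsmul _ _ m fun a ha =>
      hc a (mem_of_mem_erase (mem_of_mem_erase ha))).trans ?_)
    rw [smul_eq_mul, card_erase_of_mem hu'', card_erase_of_mem hu]
    exact Nat.mul_le_mul_right _ (by omega)
  have h5 := card_union_le (c u ∪ c u') (((t.erase u).erase u').biUnion c)
  have h6 := card_union_add_card_inter (c u) (c u')
  rw [h1 u hu, h1 u' hu'] at h6
  have hk : 2 ≤ k := by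
    have h7 : 0 < (t.erase u).card := card_pos.2 ⟨u', hu''⟩
    rw [card_erase_of_mem hu] at h7
    omega
  obtain ⟨l, rfl⟩ : ∃ l, k = l + 2 := ⟨k - 2, by omega⟩
  have h7 : l * m + 2 * m ≤ (l + 2) * m := by rw [add_mul]
  have h8 := h7.trans h3
  rw [show l + 2 - 2 = l by omega] at h4
  rw [disjoint_iff_inter_eq_empty, ← card_eq_zero]
  omega

variable {V : Type}

open scoped Classical in
/-- the closed neighbourhood -/
noncomputable def cN [Fintype V] (G : SimpleGraph V) (v : V) : Finset V :=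
  insert v (G.neighborSet v).toFinset

theorem mem_cN [Fintype V] (G : SimpleGraph V) (v u : V) : u ∈ cN G v ↔ InN G v u := by
  classical
  unfold cN InN
  rw [mem_insert, Set.mem_toFinset, SimpleGraph.mem_neighborSet]

theorem card_cN [Fintype V] (G : SimpleGraph V) (v : V) :
    (cN G v).card = (G.neighborSet v).ncard + 1 := by
  classical
  unfold cN
  rw [card_insert_of_notMem, Set.ncard_eq_toFinset_card']
  rw [Set.mem_toFinset, SimpleGraph.mem_neighborSet]
  exact G.irrefl

/-- the family and the colouring -/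
theorem nested_iff [Finite V] [Nonempty V] (G : SimpleGraph V) (δ : ℕ) (hG : IsNested G δ) (m : ℕ) :
    (∃ F : Fin ((δ + 1) * m) → Set V, (∀ i, IsDom G (F i)) ∧ mult F ≤ m) ↔
      HasCol (sq G δ) ((δ + 1) * m) m := by
  classical
  haveI := Fintype.ofFinite V
  constructor
  · rintro ⟨F, hF, hm⟩
    have hL : ∀ v, (L F v).card ≤ m := fun v => (L_card_le F v).trans hm
    have key : ∀ s, (G.neighborSet s).ncard = δ → (∀ u ∈ cN G s, (L F u).card = m) ∧
        ∀ u ∈ cN G s, ∀ u' ∈ cN G s, u ≠ u' → Disjoint (L F u) (L F u') := by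
      intro s hs
      refine tight (cN G s) (by rw [card_cN, hs]) (L F) (fun u _ => hL u) fun i => ?_
      rcases hF i s with h | ⟨u, hu, huv⟩
      · exact ⟨s, (mem_cN G s s).2 (Or.inl rfl), (mem_L F s i).2 h⟩
      · exact ⟨u, (mem_cN G s u).2 (Or.inr huv.symm), (mem_L F u i).2 hu⟩
    obtain ⟨T, -, hT⟩ := exists_subset_card_eq (s := (univ : Finset (Fin ((δ + 1) * m)))) (n := m)
      (by rw [card_univ, Fintype.card_fin]; exact Nat.le_mul_of_pos_left _ (by omega))
    refine ⟨fun v => if ∃ s, (G.neighborSet s).ncard = δ ∧ InN G s v then L F v else T,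
      fun v => ?_, ?_⟩
    · show (if ∃ s, (G.neighborSet s).ncard = δ ∧ InN G s v then L F v else T).card = m
      split_ifs with h
      · obtain ⟨s, hs, hv⟩ := h
        exact (key s hs).1 v ((mem_cN G s v).2 hv)
      · exact hT
    · rintro x y ⟨hne, s, hs, hx, hy⟩
      show Disjoint (if ∃ s, (G.neighborSet s).ncard = δ ∧ InN G s x then L F x else T)
        (if ∃ s, (G.neighborSet s).ncard = δ ∧ InN G s y then L F y else T)
      rw [if_pos ⟨s, hs, hx⟩, if_pos ⟨s, hs, hy⟩]
      exact (key s hs).2 x ((mem_cN G s x).2 hx) y ((mem_cN G s y).2 hy) hne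
  · rintro ⟨c, hc, hcd⟩
    refine ⟨fun i => {v | i ∈ c v}, fun i v => ?_, ?_⟩
    · obtain ⟨s, hs, hsv⟩ := hG v
      have h1 : ((cN G s).biUnion c).card = (δ + 1) * m := by
        rw [card_biUnion]
        · rw [sum_congr rfl (fun u _ => hc u), sum_const, card_cN, hs, smul_eq_mul]
        · intro x hx y hy hne
          exact hcd x y ⟨hne, s, hs, (mem_cN G s x).1 hx, (mem_cN G s y).1 hy⟩
      have h2 : (cN G s).biUnion c = univ := by
        rw [← card_eq_iff_eq_univ, h1, Fintype.card_fin]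
      have h3 : i ∈ (cN G s).biUnion c := by rw [h2]; exact mem_univ _
      obtain ⟨u, hu, hiu⟩ := mem_biUnion.1 h3
      rcases hsv u ((mem_cN G s u).1 hu) with h4 | h4
      · left
        rw [← h4]
        exact hiu
      · exact Or.inr ⟨u, hiu, h4.symm⟩
    · apply ciSup_le
      intro v
      have h3 : Nat.card {i // v ∈ {v | i ∈ c v}} = (c v).card := by
        rw [Nat.card_eq_fintype_card, Fintype.card_subtype]
        congr 1
        ext i
        simp
      rw [h3, hc v]

/-- the fractional domatic number is `δ + 1` iff there is a family -/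
theorem isFDOM_iff [Finite V] (G : SimpleGraph V) (δ : ℕ) (hδ : IsMinDeg G δ) :
    IsFDOM G (δ + 1) ↔ ∃ m : ℕ, 0 < m ∧ ∃ F : Fin ((δ + 1) * m) → Set V,
      (∀ i, IsDom G (F i)) ∧ mult F ≤ m := by
  constructor
  · rintro ⟨⟨r, F, hr, hF, hq⟩, -⟩
    have hm : mult F ≠ 0 := by
      intro h0
      rw [h0, Nat.cast_zero, div_zero] at hq
      have : (0 : ℝ) ≤ δ := Nat.cast_nonneg δ
      linarith
    have hm' : (mult F : ℝ) ≠ 0 := by exact_mod_cast hm
    have h1 : r = (δ + 1) * mult F := by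
      rw [eq_div_iff hm'] at hq
      exact_mod_cast hq.symm
    refine ⟨mult F, Nat.pos_of_ne_zero hm, ?_⟩
    generalize hM : mult F = M at h1
    subst h1
    exact ⟨F, hF, hM.le⟩
  · rintro ⟨m, hm, F, hF, hFm⟩
    obtain ⟨x, hx⟩ := hδ.2
    have hub : ∀ {r : ℕ} (F' : Fin r → Set V), (∀ i, IsDom G (F' i)) →
        r ≤ (δ + 1) * mult F' := by
      intro r F' hF'
      exact (family_le G x F' hF').trans (Nat.mul_le_mul_right _ (by omega))
    have h1 : mult F = m := by
      refine le_antisymm hFm ?_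
      exact Nat.le_of_mul_le_mul_left (hub F hF) (by omega)
    refine ⟨⟨(δ + 1) * m, F, by positivity, hF, ?_⟩, ?_⟩
    · rw [h1]
      have : (m : ℝ) ≠ 0 := by exact_mod_cast hm.ne'
      push_cast
      field_simp
    · rintro q ⟨r, F', hr, hF', rfl⟩
      have h2 := hub F' hF'
      have hm' : 0 < mult F' := by
        by_contra h0
        have : mult F' = 0 := by omega
        rw [this, mul_zero] at h2
        omega
      rw [div_le_iff₀ (by exact_mod_cast hm')]
      exact_mod_cast h2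

/-- **The class.** -/
theorem nested_isFDOM [Finite V] [Nonempty V] (G : SimpleGraph V) (δ : ℕ) (hδ : IsMinDeg G δ)
    (hG : IsNested G δ) :
    IsFDOM G (δ + 1) ↔ ∃ m : ℕ, 0 < m ∧ HasCol (sq G δ) ((δ + 1) * m) m := by
  rw [isFDOM_iff G δ hδ]
  exact exists_congr fun m => and_congr_right fun _ => nested_iff G δ hG m

theorem deg_end_le {δ : ℕ} {U : Type} {H : SimpleGraph U} [Finite U] (hδ : 2 ≤ δ)
    (p : {p : U × U // H.Adj p.1 p.2}) (b : Fin (δ - 1)) :
    ((gad δ H).neighborSet (Sum.inr (Sum.inr (p, b)))).ncard ≤ δ := by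
  classical
  have := deg_le (gad δ H) (Sum.inr (Sum.inr (p, b))) (ι := Option (Fin (δ - 1)))
    (fun o => match o with
      | none => Sum.inl p.1.1
      | some b' => if b' = b then Sum.inl p.1.2 else Sum.inr (Sum.inr (p, b'))) ?_
  · rw [Fintype.card_option, Fintype.card_fin] at this
    omega
  · rintro (x | s | s) h
    · rcases h with h | h
      · have h' : p.1.1 = x := h
        exact ⟨none, by rw [← h']⟩
      · have h' : p.1.2 = x := h
        exact ⟨some b, by simp [h']⟩
    · exact absurd h id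
    · obtain ⟨h1, h2⟩ : p = s.1 ∧ b ≠ s.2 := h
      refine ⟨some s.2, ?_⟩
      simp only [h2.symm, if_false, h1]

/-- the gadget graphs belong to the class -/
theorem gad_nested {δ : ℕ} {U : Type} {H : SimpleGraph U} [Finite U] (hδ : 2 ≤ δ) :
    IsNested (gad δ H) δ := by
  rintro (x | ⟨x, a⟩ | ⟨p, b⟩)
  · refine ⟨Sum.inr (Sum.inl (x, ⟨0, by omega⟩)), le_antisymm (deg_mid_le x _) (deg_mid_ge x _), ?_⟩
    rintro u (rfl | h)
    · exact Or.inr rfl
    · rcases u with x' | s | s
      · have h' : x = x' := h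
        exact Or.inl (by rw [h'])
      · have h' : x = s.1 := h.1
        exact Or.inr h'.symm
      · exact absurd h id
  · exact ⟨_, le_antisymm (deg_mid_le x a) (deg_mid_ge x a), fun u h => h⟩
  · exact ⟨_, le_antisymm (deg_end_le hδ p b) (deg_end_ge hδ p b), fun u h => h⟩

/-- **The theorem.** -/
theorem main3 (δ : ℕ) :
    (∀ (V : Type) [Finite V] [Nonempty V] (G : SimpleGraph V), IsMinDeg G δ → IsNested G δ →
      (IsFDOM G (δ + 1) ↔ ∃ m : ℕ, 0 < m ∧ HasCol (sq G δ) ((δ + 1) * m) m) ∧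
      ∀ m : ℕ, (∃ F : Fin ((δ + 1) * m) → Set V, (∀ i, IsDom G (F i)) ∧ mult F ≤ m) ↔
        HasCol (sq G δ) ((δ + 1) * m) m) ∧
    (2 ≤ δ → ∀ (U : Type) [Finite U] [Nonempty U] (H : SimpleGraph U),
      IsMinDeg (gad δ H) δ ∧ IsNested (gad δ H) δ ∧
      (IsFDOM (gad δ H) (δ + 1) ↔ ∃ m : ℕ, 0 < m ∧ HasCol H ((δ + 1) * m) m) ∧
      ∀ m : ℕ, (∃ F : Fin ((δ + 1) * m) → Set (VG δ H), (∀ i, IsDom (gad δ H) (F i)) ∧ mult F ≤ m) ↔
        HasCol H ((δ + 1) * m) m) ∧
    (2 ≤ δ → ∀ T : ℕ, ∃ (U : Type) (_ : Finite U) (_ : Nonempty U) (H : SimpleGraph U),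
      IsFDOM (gad δ H) (δ + 1) ∧
      ∀ (r : ℕ) (F : Fin r → Set (VG δ H)), 0 < r → (∀ i, IsDom (gad δ H) (F i)) → mult F ≤ T →
        (r : ℝ) / mult F < δ + 1) :=
  ⟨fun V _ _ G hδ hG => ⟨nested_isFDOM G δ hδ hG, nested_iff G δ hG⟩,
    fun hδ U _ _ H => ⟨gad_minDeg hδ, gad_nested hδ, ((main2 δ hδ).1 U H).2.1, ((main2 δ hδ).1 U H).2.2⟩,
    fun hδ => (main2 δ hδ).2⟩

end Pool.Agent.P8H62.FD
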