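import Mathlib
import Pool.Agent.P8H62.FD.Cls

/-!
# A cubic graph with fractional domatic number 4 and domatic number less than 4
-/

set_option autoImplicit false
set_option linter.all false
set_option maxRecDepth 100000
set_option maxHeartbeats 400000

open Finset

namespace Pool.Agent.P8H62.FD.Cub

/-- the code of the neighbours: `nb v j`, `j < 3`, are the neighbours of `v` -/
def A : ℕ := 1320953883939600184733772177586925747673018848770167286957692953552818438563444405338583997308776956826246663647942461602538249377091065618048480397902966265438984020186869813997604978785318085204774020944700776324253176189276698505009250299893317090002131888884923077023138107245788736877227754191494991518213993461384750735939231722757931134435253381700416386097107708646329397646995315556671726991412784162700035004087361437285774314794450460931461685133917650888624088592166089492062843420983572123431799136958993522382275165806455885036631563252261095074485519919528277043398957272562990249337386190151533445057163709376568367580785816257183691886520137039353112801948697008737755945173505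

/-- the code of the labels -/
def B : ℕ := 89734873613715349146274663288013015151493088679640969736698031111964826067105659625758093407466156675693029468862605905423681788952100534120965729857913485624748285336614209

def nb (v j : ℕ) : ℕ := (A / 256 ^ (3 * v + j)) % 256

def l1 (v : ℕ) : ℕ := ((B / 64 ^ v) % 64) / 8
def l2 (v : ℕ) : ℕ := (B / 64 ^ v) % 8

def adjb (u v : ℕ) : Bool := (Nat.beq (nb u 0) v || Nat.beq (nb u 1) v) || Nat.beq (nb u 2) v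

/-- the closed neighbourhood of `v` : `cn v j`, `j < 4` -/
def cn (v j : ℕ) : ℕ := match j with
  | 0 => v
  | j + 1 => nb v j

/-- the conditions on the table -/
def okv (v : ℕ) : Bool :=
  (((Nat.blt (nb v 0) 96 && Nat.blt (nb v 1) 96) && Nat.blt (nb v 2) 96) &&
  ((adjb (nb v 0) v && adjb (nb v 1) v) && adjb (nb v 2) v)) &&
  (((!(Nat.beq (nb v 0) v) && !(Nat.beq (nb v 1) v)) && !(Nat.beq (nb v 2) v)) &&
  ((!(Nat.beq (nb v 0) (nb v 1)) && !(Nat.beq (nb v 0) (nb v 2))) && !(Nat.beq (nb v 1) (nb v 2))))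

theorem okv_all : ∀ v < 96, okv v = true := by decide +kernel

def disjb (u v : ℕ) : Bool :=
  (!(Nat.beq (l1 u) (l1 v)) && !(Nat.beq (l1 u) (l2 v))) && (!(Nat.beq (l2 u) (l1 v)) && !(Nat.beq (l2 u) (l2 v)))

theorem lab_all : ∀ v < 96, ∀ i < 4, ∀ j < 4, i = j ∨ disjb (cn v i) (cn v j) = true := by decide +kernel

theorem lab_ne : ∀ v < 96, (Nat.beq (l1 v) (l2 v) = false) ∧ Nat.blt (l1 v) 8 = true := by decide +kernel

inductive Tr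
  | L (w : ℕ) : Tr
  | N (v : ℕ) (a b c d : Tr) : Tr

/-- `v` and `w` are in a common closed neighbourhood -/
def sqb (v w : ℕ) : Bool :=
  !(Nat.beq v w) && (adjb v w || ((adjb (nb v 0) w || adjb (nb v 1) w) || adjb (nb v 2) w))

def chk : Tr → List (ℕ × ℕ) → Bool
  | .L w, l => match l with
    | [] => false
    | p :: r => (r.any fun q => Nat.beq q.1 w && Nat.beq q.2 p.2) && sqb p.1 w
  | .N v a b c d, l => (Nat.blt v 96) && ((chk a ((v, 0) :: l) && chk b ((v, 1) :: l)) &&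
      (chk c ((v, 2) :: l) && chk d ((v, 3) :: l)))

theorem chk_sound (col : ℕ → ℕ) (h4 : ∀ v < 96, col v < 4)
    (hs : ∀ v w, v < 96 → w < 96 → sqb v w = true → col v ≠ col w) :
    ∀ (t : Tr) (l : List (ℕ × ℕ)), (∀ p ∈ l, p.1 < 96 ∧ col p.1 = p.2) → chk t l = false := by
  intro t
  induction t with
  | L w =>
    intro l hl
    by_contra hc
    rw [Bool.not_eq_false] at hc
    match l, hl, hc with
    | [], _, hc => simp [chk] at hc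
    | p :: r, hl, hc =>
      simp only [chk, Bool.and_eq_true, List.any_eq_true] at hc
      obtain ⟨⟨q, hq, h1, h2⟩, h3⟩ := hc
      have h1 := Nat.eq_of_beq_eq_true h1
      have h2 := Nat.eq_of_beq_eq_true h2
      have hp := hl p (by simp)
      have hq' := hl q (by simp [hq])
      subst h1
      exact hs p.1 q.1 hp.1 hq'.1 h3 (by rw [hp.2, hq'.2, h2])
  | N v a b c d iha ihb ihc ihd =>
    intro l hl
    by_contra hc
    rw [Bool.not_eq_false] at hc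
    simp only [chk, Bool.and_eq_true] at hc
    obtain ⟨hv, ⟨ha, hb⟩, hc, hd⟩ := hc
    have hv : v < 96 := by
      have := Nat.le_of_ble_eq_true hv
      omega
    have key : ∀ k, col v = k → ∀ p ∈ (v, k) :: l, p.1 < 96 ∧ col p.1 = p.2 := by
      intro k hk p hp
      rcases List.mem_cons.1 hp with rfl | hp
      · exact ⟨hv, hk⟩
      · exact hl p hp
    have h := h4 v hv
    have : col v = 0 ∨ col v = 1 ∨ col v = 2 ∨ col v = 3 := by omega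
    rcases this with h | h | h | h
    · rw [iha _ (key 0 h)] at ha; exact absurd ha (by simp)
    · rw [ihb _ (key 1 h)] at hb; exact absurd hb (by simp)
    · rw [ihc _ (key 2 h)] at hc; exact absurd hc (by simp)
    · rw [ihd _ (key 3 h)] at hd; exact absurd hd (by simp)

def tree : Tr := (.N 36 (.N 55 (.L 56) (.L 47) (.N 46 (.L 56) (.L 47) (.L 55) (.N 54 (.L 36) (.L 47) (.L 55) (.N 70 (.L 56) (.N 35 (.L 36) (.L 70) (.L 55) (.N 65 (.L 56) (.L 70) (.L 57) (.N 69 (.L 36) (.L 70) (.L 57) (.N 38 (.N 68 (.L 38) (.L 70) (.N 60 (.L 38) (.N 59 (.L 56) (.L 60) (.N 37 (.L 38) (.N 28 (.N 34 (.L 36) (.L 37) (.N 45 (.L 56) (.N 61 (.L 28) (.L 60) (.L 59) (.N 64 (.N 63 (.L 64) (.L 60) (.N 66 (.L 64) (.N 44 (.N 27 (.L 28) (.L 60) (.L 68) (.N 39 (.L 38) (.L 37) (.N 43 (.L 44) (.L 45) (.N 48 (.L 44) (.L 47) (.N 25 (.L 28) (.N 26 (.N 33 (.L 26) (.L 25) (.L 48) (.L 35)) (.L 25)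 (.L 48) (.L 46)) (.L 48) (.L 27)) (.L 46)) (.L 46)) (.L 35))) (.L 47) (.L 63) (.L 58)) (.L 68) (.L 69)) (.L 65)) (.L 45) (.L 68) (.L 65))) (.L 59) (.L 58)) (.L 54)) (.L 60) (.L 68) (.L 69)) (.L 59) (.L 69)) (.L 69)) (.L 68) (.L 58)) (.L 69)) (.L 70) (.N 37 (.L 36) (.N 59 (.L 56) (.L 37) (.L 38) (.L 69)) (.L 38) (.L 69)) (.L 69))))) (.L 57) (.N 35 (.L 36) (.N 18 (.N 34 (.L 36) (.L 35) (.N 17 (.L 18) (.N 33 (.L 18) (.L 35) (.L 34) (.N 37 (.L 36) (.L 35) (.L 34) (.N 69 (.L 36) (.N 59 (.L 56) (.L 69) (.N 38 (.N 45 (.L 56) (.N 39 (.L 38) (.L 35) (.N 53 (.L 18) (.N 60 (.L 38) (.N 68 (.L 38) (.L 69) (.N 65 (.L 56) (.N 28 (.N 61 (.L 28) (.L 60) (.L 59) (.N 64 (.N 63 (.L 64) (.L 65) (.N 66 (.L 64) (.L 69) (.L 68) (.N 44 (.N 48 (.L 44) (.L 47) (.N 25 (.L 28) (.N 26 (.N 27 (.L 28) (.L 60) (.L 68) (.N 24 (.L 26) (.L 53) (.N 7 (.N 29 (.L 28) (.L 25) (.N 31 (.L 26) (.N 6 (.L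 7) (.L 53) (.L 24) (.N 22 (.L 7) (.L 25) (.L 24) (.N 20 (.N 19 (.L 20) (.L 17) (.N 21 (.L 20) (.N 23 (.L 20) (.N 30 (.N 91 (.L 30) (.L 31) (.N 32 (.N 92 (.L 32) (.L 23) (.L 91) (.N 1 (.L 20) (.L 17) (.L 19) (.N 16 (.L 18) (.L 17) (.L 19) (.N 40 (.N 43 (.L 44) (.L 45) (.N 49 (.L 26) (.N 52 (.L 7) (.L 53) (.N 62 (.N 88 (.L 62) (.L 23) (.L 29) (.N 67 (.L 64) (.N 73 (.L 64) (.L 67) (.L 57) (.N 90 (.L 32) (.L 31) (.L 91) (.N 93 (.N 41 (.L 44) (.N 42 (.L 44) (.L 41) (.L 43) (.N 50 (.N 51 (.L 50) (.L 53) (.L 52) (.N 72 (.N 71 (.L 72) (.L 67) (.N 13 (.L 72) (.L 65) (.N 74 (.L 72) (.L 67) (.L 71) (.N 75 (.N 76 (.L 75) (.N 12 (.L 75) (.N 8 (.L 7) (.L 12) (.N 4 (.L 7) (.N 3 (.N 0 (.L 3) (.L 4) (.L 19) (.L 1)) (.L 4) (.L 19) (.L 6)) (.L 8) (.L 6)) (.L 16)) (.L 13) (.L 73)) (.L 71) (.L 74)) (.N 76 (.N 12 (.N 10 (.L 12) (.N 14 (.L 12) (.L 10) (.L 13) (.L 16)) (.L 13) (.L 6))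 (.L 75) (.L 13) (.L 73)) (.L 75) (.L 71) (.L 74)) (.L 71) (.L 74))) (.L 73)) (.L 73)) (.L 67) (.N 71 (.N 13 (.N 74 (.L 71) (.L 67) (.L 72) (.N 75 (.L 71) (.N 76 (.L 71) (.L 75) (.N 12 (.L 13) (.L 75) (.N 8 (.L 7) (.N 10 (.L 13) (.L 8) (.L 12) (.L 6)) (.L 12) (.L 16)) (.L 73)) (.L 74)) (.N 76 (.L 71) (.N 12 (.L 13) (.N 8 (.L 7) (.L 12) (.N 10 (.L 13) (.L 12) (.L 8) (.L 6)) (.L 16)) (.L 75) (.L 73)) (.L 75) (.L 74)) (.L 74))) (.L 65) (.L 72) (.L 73)) (.L 67) (.L 72) (.L 73)) (.L 73))) (.L 53) (.L 52) (.N 51 (.N 72 (.N 71 (.L 72) (.L 67) (.N 13 (.L 72) (.L 65) (.N 74 (.L 72) (.L 67) (.L 71) (.N 75 (.N 76 (.L 75) (.N 12 (.L 75) (.N 8 (.L 7) (.L 12) (.N 4 (.L 7) (.N 3 (.N 0 (.L 3) (.L 4) (.L 19) (.L 1)) (.L 4) (.L 19) (.L 6)) (.L 8) (.L 6)) (.L 16)) (.L 13) (.L 73)) (.L 71) (.L 74)) (.N 76 (.N 12 (.N 10 (.L 12) (.N 14 (.L 12) (.L 10) (.L 13) (.L 16)) (.L 13) (.L 6))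 (.L 75) (.L 13) (.L 73)) (.L 75) (.L 71) (.L 74)) (.L 71) (.L 74))) (.L 73)) (.L 73)) (.L 67) (.N 71 (.N 13 (.N 74 (.L 71) (.L 67) (.L 72) (.N 75 (.L 71) (.N 76 (.L 71) (.L 75) (.N 12 (.L 13) (.L 75) (.N 8 (.L 7) (.N 10 (.L 13) (.L 8) (.L 12) (.L 6)) (.L 12) (.L 16)) (.L 73)) (.L 74)) (.N 76 (.L 71) (.N 12 (.L 13) (.N 8 (.L 7) (.L 12) (.N 10 (.L 13) (.L 12) (.L 8) (.L 6)) (.L 16)) (.L 75) (.L 73)) (.L 75) (.L 74)) (.L 74))) (.L 65) (.L 72) (.L 73)) (.L 67) (.L 72) (.L 73)) (.L 73)) (.L 53) (.L 52) (.L 50)))) (.L 43) (.N 42 (.L 44) (.N 50 (.N 51 (.L 50) (.L 53) (.L 52) (.N 72 (.N 71 (.L 72) (.L 67) (.N 13 (.L 72) (.L 65) (.N 74 (.L 72) (.L 67) (.L 71) (.N 75 (.N 76 (.L 75) (.N 12 (.L 75) (.N 8 (.L 7) (.L 12) (.N 4 (.L 7) (.N 3 (.N 0 (.L 3) (.L 4) (.L 19) (.L 1)) (.L 4) (.L 19) (.L 6)) (.L 8) (.L 6)) (.L 16)) (.L 13) (.L 73)) (.L 71) (.L 74)) (.N 76 (.N 12 (.N 10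 (.L 12) (.N 14 (.L 12) (.L 10) (.L 13) (.L 16)) (.L 13) (.L 6)) (.L 75) (.L 13) (.L 73)) (.L 75) (.L 71) (.L 74)) (.L 71) (.L 74))) (.L 73)) (.L 73)) (.L 67) (.N 71 (.N 13 (.N 74 (.L 71) (.L 67) (.L 72) (.N 75 (.L 71) (.N 76 (.L 71) (.L 75) (.N 12 (.L 13) (.L 75) (.N 8 (.L 7) (.N 10 (.L 13) (.L 8) (.L 12) (.L 6)) (.L 12) (.L 16)) (.L 73)) (.L 74)) (.N 76 (.L 71) (.N 12 (.L 13) (.N 8 (.L 7) (.L 12) (.N 10 (.L 13) (.L 12) (.L 8) (.L 6)) (.L 16)) (.L 75) (.L 73)) (.L 75) (.L 74)) (.L 74))) (.L 65) (.L 72) (.L 73)) (.L 67) (.L 72) (.L 73)) (.L 73))) (.L 53) (.L 52) (.N 51 (.N 72 (.N 71 (.L 72) (.L 67) (.N 13 (.L 72) (.L 65) (.N 74 (.L 72) (.L 67) (.L 71) (.N 75 (.N 76 (.L 75) (.N 12 (.L 75) (.N 8 (.L 7) (.L 12) (.N 4 (.L 7) (.N 3 (.N 0 (.L 3) (.L 4) (.L 19) (.L 1)) (.L 4) (.L 19) (.L 6)) (.L 8) (.L 6)) (.L 16)) (.L 13) (.L 73)) (.L 71) (.L 74)) (.N 76 (.N 12 (.N 10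 (.L 12) (.N 14 (.L 12) (.L 10) (.L 13) (.L 16)) (.L 13) (.L 6)) (.L 75) (.L 13) (.L 73)) (.L 75) (.L 71) (.L 74)) (.L 71) (.L 74))) (.L 73)) (.L 73)) (.L 67) (.N 71 (.N 13 (.N 74 (.L 71) (.L 67) (.L 72) (.N 75 (.L 71) (.N 76 (.L 71) (.L 75) (.N 12 (.L 13) (.L 75) (.N 8 (.L 7) (.N 10 (.L 13) (.L 8) (.L 12) (.L 6)) (.L 12) (.L 16)) (.L 73)) (.L 74)) (.N 76 (.L 71) (.N 12 (.L 13) (.N 8 (.L 7) (.L 12) (.N 10 (.L 13) (.L 12) (.L 8) (.L 6)) (.L 16)) (.L 75) (.L 73)) (.L 75) (.L 74)) (.L 74))) (.L 65) (.L 72) (.L 73)) (.L 67) (.L 72) (.L 73)) (.L 73)) (.L 53) (.L 52) (.L 50))) (.L 43) (.L 41))) (.L 21) (.L 91) (.L 92)))) (.L 68) (.L 66))) (.L 60) (.L 63) (.L 61)) (.L 54)) (.L 48) (.L 46)) (.L 46)) (.L 21) (.L 39) (.L 37))))) (.L 31) (.L 91) (.L 33)) (.L 22)) (.L 31) (.L 29) (.L 27)) (.L 29) (.L 22)) (.L 39) (.L 37)) (.L 22)) (.L 17) (.L 39) (.L 22)))) (.L 34) (.L 33))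 (.L 33)) (.L 53) (.L 24) (.L 54)) (.L 27))) (.L 25) (.L 48) (.L 46)) (.L 48) (.L 33)) (.L 46)) (.L 47) (.L 63) (.L 58))) (.L 61)) (.L 65) (.L 68) (.L 61))) (.L 69) (.L 68) (.N 61 (.N 63 (.L 61) (.L 65) (.N 64 (.L 61) (.L 65) (.L 68) (.N 66 (.N 44 (.N 48 (.L 44) (.L 47) (.N 27 (.N 26 (.L 27) (.N 25 (.L 27) (.L 26) (.L 48) (.L 33)) (.L 48) (.L 46)) (.L 60) (.L 68) (.L 28)) (.L 46)) (.L 47) (.L 63) (.L 58)) (.L 69) (.L 68) (.L 64))) (.L 58)) (.L 60) (.L 59) (.L 28))) (.L 57) (.L 70)) (.L 70)) (.L 59) (.L 58)) (.L 55) (.L 54)) (.L 37)) (.L 59) (.L 58)) (.L 69) (.L 59) (.L 70)) (.L 58)) (.L 57) (.L 70)))) (.L 34) (.L 54)) (.L 54)) (.L 35) (.L 55) (.L 54)) (.L 55) (.L 70))))) (.N 70 (.L 56) (.N 35 (.L 36) (.L 70) (.N 38 (.N 69 (.L 38) (.L 70) (.L 57) (.N 37 (.L 38) (.N 59 (.L 56) (.L 37) (.N 34 (.L 36) (.L 37) (.L 35) (.N 54 (.L 36) (.L 47) (.N 39 (.L 38) (.L 37) (.L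 35) (.N 45 (.L 56) (.N 46 (.L 56) (.L 47) (.N 44 (.N 43 (.L 44) (.L 45) (.L 46) (.N 48 (.L 44) (.L 47) (.L 46) (.N 60 (.L 38) (.N 63 (.L 44) (.L 60) (.N 65 (.L 56) (.L 70) (.L 63) (.N 64 (.N 61 (.L 64) (.L 60) (.L 63) (.N 68 (.L 64) (.L 70) (.N 28 (.N 66 (.L 64) (.N 27 (.L 28) (.L 60) (.L 68) (.N 62 (.N 67 (.L 64) (.L 66) (.L 68) (.N 73 (.L 64) (.N 18 (.N 33 (.L 18) (.N 26 (.N 25 (.L 28) (.L 33) (.N 29 (.L 28) (.L 33) (.L 25) (.L 27)) (.L 48)) (.L 33) (.L 46) (.L 48)) (.L 35) (.L 48)) (.N 33 (.N 26 (.L 33) (.N 25 (.L 33) (.L 26) (.N 29 (.L 33) (.N 31 (.L 33) (.L 29) (.N 17 (.N 24 (.N 53 (.L 24) (.L 18) (.L 54) (.L 55)) (.L 26) (.L 25) (.L 27)) (.L 18) (.L 54) (.L 34)) (.L 34)) (.L 25) (.L 27)) (.L 48)) (.L 46) (.L 48)) (.L 18) (.L 35) (.L 48)) (.L 54) (.L 55)) (.L 57) (.L 67))) (.L 60) (.L 63) (.L 61))) (.L 68) (.L 69)) (.L 60) (.L 68) (.L 69)) (.L 69))) (.L 45)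 (.L 63) (.L 65))) (.L 58)) (.L 59) (.L 58)))) (.L 47) (.L 46) (.L 58)) (.L 55)) (.L 59) (.L 58))) (.L 55))) (.L 69)) (.L 35) (.L 69))) (.L 70) (.L 35) (.L 58)) (.L 55)) (.L 57) (.L 55))) (.L 47) (.L 57) (.N 55 (.L 56) (.L 47) (.N 70 (.L 56) (.N 35 (.N 38 (.L 35) (.L 70) (.N 69 (.N 37 (.L 69) (.N 59 (.L 69) (.L 37) (.L 38) (.L 58)) (.L 38) (.L 36)) (.L 70) (.L 57) (.L 36)) (.L 58)) (.L 70) (.L 55) (.L 36)) (.L 57) (.L 36)) (.L 36)))

def init : List (ℕ × ℕ) := [(56, 0), (nb 56 0, 1), (nb 56 1, 2), (nb 56 2, 3)]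

theorem tree_ok : chk tree init = true := by decide +kernel

attribute [local irreducible] A B nb l1

theorem adjb_iff (u v : ℕ) : adjb u v = true ↔ v = nb u 0 ∨ v = nb u 1 ∨ v = nb u 2 := by
  simp only [adjb, Bool.or_eq_true]
  constructor
  · rintro ((h | h) | h)
    · exact Or.inl (Nat.eq_of_beq_eq_true h).symm
    · exact Or.inr (Or.inl (Nat.eq_of_beq_eq_true h).symm)
    · exact Or.inr (Or.inr (Nat.eq_of_beq_eq_true h).symm)
  · rintro (h | h | h)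
    · exact Or.inl (Or.inl (h ▸ Nat.beq_refl _))
    · exact Or.inl (Or.inr (h ▸ Nat.beq_refl _))
    · exact Or.inr (h ▸ Nat.beq_refl _)

theorem tab (v : ℕ) (hv : v < 96) :
    (nb v 0 < 96 ∧ nb v 1 < 96 ∧ nb v 2 < 96) ∧
    (adjb (nb v 0) v = true ∧ adjb (nb v 1) v = true ∧ adjb (nb v 2) v = true) ∧
    (nb v 0 ≠ v ∧ nb v 1 ≠ v ∧ nb v 2 ≠ v) ∧ (nb v 0 ≠ nb v 1 ∧ nb v 0 ≠ nb v 2 ∧ nb v 1 ≠ nb v 2) := by
  have h := okv_all v hv
  simp only [okv, Bool.and_eq_true, Bool.not_eq_true', Nat.blt, Nat.ble_eq] at h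
  obtain ⟨⟨⟨⟨a1, a2⟩, a3⟩, ⟨b1, b2⟩, b3⟩, ⟨⟨c1, c2⟩, c3⟩, ⟨d1, d2⟩, d3⟩ := h
  have ne : ∀ {x y : ℕ}, Nat.beq x y = false → x ≠ y := fun hxy => Nat.ne_of_beq_eq_false hxy
  exact ⟨⟨a1, a2, a3⟩, ⟨b1, b2, b3⟩, ⟨ne c1, ne c2, ne c3⟩, ne d1, ne d2, ne d3⟩

/-- the graph -/
def G : SimpleGraph (Fin 96) where
  Adj u v := adjb u.1 v.1 = true
  symm := ⟨fun u v h => by
    obtain ⟨_, ⟨b1, b2, b3⟩, _⟩ := tab u.1 u.2
    rcases (adjb_iff _ _).1 h with h | h | h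
    · rw [h]; exact b1
    · rw [h]; exact b2
    · rw [h]; exact b3⟩
  loopless := ⟨fun u h => by
    obtain ⟨_, _, ⟨c1, c2, c3⟩, _⟩ := tab u.1 u.2
    rcases (adjb_iff _ _).1 h with h | h | h
    · exact c1 h.symm
    · exact c2 h.symm
    · exact c3 h.symm⟩

def nbF (v : Fin 96) : Fin 3 → Fin 96 := ![⟨nb v 0, (tab v.1 v.2).1.1⟩, ⟨nb v 1, (tab v.1 v.2).1.2.1⟩,
  ⟨nb v 2, (tab v.1 v.2).1.2.2⟩]

theorem G_adj (u v : Fin 96) : G.Adj u v ↔ v = nbF u 0 ∨ v = nbF u 1 ∨ v = nbF u 2 := by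
  change adjb u.1 v.1 = true ↔ _
  rw [adjb_iff]
  simp [nbF, Fin.ext_iff]

theorem degG (v : Fin 96) : (G.neighborSet v).ncard = 3 := by
  have h : G.neighborSet v = {nbF v 0, nbF v 1, nbF v 2} := by
    ext u
    simp [SimpleGraph.mem_neighborSet, G_adj]
  obtain ⟨_, _, _, d1, d2, d3⟩ := tab v.1 v.2
  rw [h, Set.ncard_eq_three]
  refine ⟨_, _, _, ?_, ?_, ?_, rfl⟩ <;> simp [nbF, Fin.ext_iff, d1, d2, d3]

theorem minG : IsMinDeg G 3 := ⟨fun v => by rw [degG], ⟨0, by norm_num⟩, degG _⟩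

theorem nestG : IsNested G 3 := fun v => ⟨v, degG v, fun u h => h⟩

theorem inN_cn (z x : Fin 96) (h : InN G z x) : ∃ i < 4, cn z.1 i = x.1 := by
  rcases h with h | h
  · exact ⟨0, by norm_num, by simp [cn, h]⟩
  · rcases (adjb_iff _ _).1 h with h | h | h
    · exact ⟨1, by norm_num, h.symm⟩
    · exact ⟨2, by norm_num, h.symm⟩
    · exact ⟨3, by norm_num, h.symm⟩

theorem hasCol2 : HasCol (sq G 3) ((3 + 1) * 2) 2 := by
  refine ⟨fun u => {⟨l1 u.1 % 8, Nat.mod_lt _ (by norm_num)⟩, ⟨l2 u.1 % 8, Nat.mod_lt _ (by norm_num)⟩}, ?_, ?_⟩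
  · intro u
    have h := lab_ne u.1 u.2
    have h1 : l1 u.1 ≠ l2 u.1 := Nat.ne_of_beq_eq_false h.1
    have h2 : l1 u.1 < 8 := Nat.le_of_ble_eq_true h.2
    have h3 : l2 u.1 < 8 := Nat.mod_lt _ (by norm_num)
    rw [Finset.card_pair]
    intro hc
    have := congrArg Fin.val hc
    simp only [Nat.mod_eq_of_lt h2, Nat.mod_eq_of_lt h3] at this
    exact h1 this
  · rintro u v ⟨huv, z, _, hu, hv⟩
    obtain ⟨i, hi, hi'⟩ := inN_cn z u hu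
    obtain ⟨j, hj, hj'⟩ := inN_cn z v hv
    have hij : i ≠ j := by
      rintro rfl
      exact huv (Fin.ext (hi'.symm.trans hj'))
    have h := (lab_all z.1 z.2 i hi j hj).resolve_left hij
    rw [hi', hj'] at h
    simp only [disjb, Bool.and_eq_true, Bool.not_eq_true'] at h
    obtain ⟨⟨a, b⟩, c, d⟩ := h
    have hu1 : l1 u.1 < 8 := Nat.le_of_ble_eq_true (lab_ne u.1 u.2).2
    have hv1 : l1 v.1 < 8 := Nat.le_of_ble_eq_true (lab_ne v.1 v.2).2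
    have hu2 : l2 u.1 < 8 := Nat.mod_lt _ (by norm_num)
    have hv2 : l2 v.1 < 8 := Nat.mod_lt _ (by norm_num)
    have a := Nat.ne_of_beq_eq_false a
    have b := Nat.ne_of_beq_eq_false b
    have c := Nat.ne_of_beq_eq_false c
    have d := Nat.ne_of_beq_eq_false d
    rw [Finset.disjoint_left]
    intro x hx hx'
    simp only [Finset.mem_insert, Finset.mem_singleton, Fin.ext_iff, Nat.mod_eq_of_lt hu1,
      Nat.mod_eq_of_lt hu2, Nat.mod_eq_of_lt hv1, Nat.mod_eq_of_lt hv2] at hx hx'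
    omega

theorem noCol1 : ¬ HasCol (sq G 3) ((3 + 1) * 1) 1 := by
  rintro ⟨c, hc, hd⟩
  have hx : ∀ u, ∃ x, c u = {x} := fun u => Finset.card_eq_one.1 (hc u)
  choose f hf using hx
  have hne : ∀ u v, (sq G 3).Adj u v → f u ≠ f v := by
    intro u v h he
    have := hd u v h
    rw [hf, hf, he] at this
    simp at this
  have hN : ∀ z x y : Fin 96, InN G z x → InN G z y → x ≠ y → f x ≠ f y :=
    fun z x y h1 h2 h3 => hne x y ⟨h3, z, degG z, h1, h2⟩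
  -- the vertices of the closed neighbourhood of the root
  let r : Fin 96 := ⟨56, by norm_num⟩
  let g : Fin 4 → Fin 96 := ![r, nbF r 0, nbF r 1, nbF r 2]
  have gN : ∀ i, InN G r (g i) := by
    intro i
    fin_cases i
    · exact Or.inl rfl
    · exact Or.inr ((G_adj _ _).2 (Or.inl rfl))
    · exact Or.inr ((G_adj _ _).2 (Or.inr (Or.inl rfl)))
    · exact Or.inr ((G_adj _ _).2 (Or.inr (Or.inr rfl)))
  obtain ⟨_, _, ⟨c1, c2, c3⟩, d1, d2, d3⟩ := tab r.1 r.2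
  have ginj : Function.Injective g := by
    have e01 : g 0 ≠ g 1 := fun h => c1 (congrArg Fin.val h).symm
    have e02 : g 0 ≠ g 2 := fun h => c2 (congrArg Fin.val h).symm
    have e03 : g 0 ≠ g 3 := fun h => c3 (congrArg Fin.val h).symm
    have e12 : g 1 ≠ g 2 := fun h => d1 (congrArg Fin.val h)
    have e13 : g 1 ≠ g 3 := fun h => d2 (congrArg Fin.val h)
    have e23 : g 2 ≠ g 3 := fun h => d3 (congrArg Fin.val h)
    have key : ∀ a b : Fin 4, a < b → g a ≠ g b := by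
      rintro ⟨a, ha⟩ ⟨b, hb⟩ hab
      have hab' : a < b := hab
      have h6 : (a = 0 ∧ b = 1) ∨ (a = 0 ∧ b = 2) ∨ (a = 0 ∧ b = 3) ∨ (a = 1 ∧ b = 2) ∨ (a = 1 ∧ b = 3) ∨
          (a = 2 ∧ b = 3) := by omega
      rcases h6 with ⟨rfl, rfl⟩ | ⟨rfl, rfl⟩ | ⟨rfl, rfl⟩ | ⟨rfl, rfl⟩ | ⟨rfl, rfl⟩ | ⟨rfl, rfl⟩
      · exact e01
      · exact e02
      · exact e03
      · exact e12
      · exact e13
      · exact e23
    intro i j hij
    rcases lt_trichotomy i j with h | h | h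
    · exact absurd hij (key _ _ h)
    · exact h
    · exact absurd hij.symm (key _ _ h)
  have hinj : Function.Injective (fun i => f (g i)) := by
    intro i j hij
    by_contra hne'
    exact hN r _ _ (gN i) (gN j) (fun h => hne' (ginj h)) hij
  let e : Fin 4 ≃ Fin ((3 + 1) * 1) := Equiv.ofBijective _
    ((Fintype.bijective_iff_injective_and_card _).2 ⟨hinj, by simp⟩)
  have he : ∀ i, e.symm (f (g i)) = i := fun i => e.symm_apply_apply i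
  let col : ℕ → ℕ := fun v => if h : v < 96 then (e.symm (f ⟨v, h⟩)).1 else 0
  have h4 : ∀ v < 96, col v < 4 := by
    intro v hv
    simp only [col, dif_pos hv]
    exact (e.symm (f ⟨v, hv⟩)).2
  have hs : ∀ v w, v < 96 → w < 96 → sqb v w = true → col v ≠ col w := by
    intro v w hv hw h hcol
    simp only [col, dif_pos hv, dif_pos hw] at hcol
    have hfe : f ⟨v, hv⟩ = f ⟨w, hw⟩ := e.symm.injective (Fin.ext hcol)
    simp only [sqb, Bool.and_eq_true, Bool.not_eq_true', Bool.or_eq_true] at h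
    obtain ⟨h1, h2⟩ := h
    have h1 : (⟨v, hv⟩ : Fin 96) ≠ ⟨w, hw⟩ := fun h => Nat.ne_of_beq_eq_false h1 (congrArg Fin.val h)
    have T := tab v hv
    have aux : ∀ j (hj : nb v j < 96), adjb (nb v j) v = true → adjb (nb v j) w = true → False := by
      intro j hj hj1 hj2
      exact hN ⟨nb v j, hj⟩ ⟨v, hv⟩ ⟨w, hw⟩ (Or.inr hj1) (Or.inr hj2) h1 hfe
    rcases h2 with h2 | ((h2 | h2) | h2)
    · exact hN ⟨v, hv⟩ ⟨v, hv⟩ ⟨w, hw⟩ (Or.inl rfl) (Or.inr h2) h1 hfe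
    · exact aux 0 T.1.1 T.2.1.1 h2
    · exact aux 1 T.1.2.1 T.2.1.2.1 h2
    · exact aux 2 T.1.2.2 T.2.1.2.2 h2
  have hcg : ∀ i, col (g i).1 = i.1 := by
    intro i
    simp only [col, dif_pos (g i).2]
    exact congrArg Fin.val (he i)
  have := chk_sound col h4 hs tree init (by
    intro p hp
    simp only [init, List.mem_cons, List.not_mem_nil, or_false] at hp
    rcases hp with rfl | rfl | rfl | rfl
    · exact ⟨(g 0).2, hcg 0⟩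
    · exact ⟨(g 1).2, hcg 1⟩
    · exact ⟨(g 2).2, hcg 2⟩
    · exact ⟨(g 3).2, hcg 3⟩)
  rw [tree_ok] at this
  exact absurd this (by simp)

theorem fdomG : IsFDOM G 4 := by
  have h := (((main3 3).1 (Fin 96) G minG nestG).1).2 ⟨2, by norm_num, hasCol2⟩
  norm_num at h
  exact h

theorem domG : ¬ ∃ F : Fin 4 → Set (Fin 96), (∀ i, IsDom G (F i)) ∧ ∀ i j, i ≠ j → Disjoint (F i) (F j) := by
  rintro ⟨F, h1, h2⟩
  refine noCol1 ((((main3 3).1 (Fin 96) G minG nestG).2 1).1 ⟨F, h1, ?_⟩)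
  apply ciSup_le
  intro v
  rw [Finite.card_le_one_iff_subsingleton]
  refine ⟨?_⟩
  rintro ⟨i, hi⟩ ⟨j, hj⟩
  by_contra h
  have hij : i ≠ j := fun h' => h (Subtype.ext h')
  exact Set.disjoint_left.1 (h2 i j hij) hi hj

end Pool.Agent.P8H62.FD.Cub
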