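import Mathlib

/-!
# Graphs whose fractional domatic number is the minimum degree plus one: the gadget
-/

set_option autoImplicit false
set_option linter.all false

open Finset

namespace Pool.Agent.P8H62.FD

/-- `D` is a dominating set of `G` -/
def IsDom {V : Type} (G : SimpleGraph V) (D : Set V) : Prop := ∀ v, v ∈ D ∨ ∃ u ∈ D, G.Adj u v

/-- the largest number of members of the family `F` which contain a common vertex -/
noncomputable def mult {V : Type} {r : ℕ} (F : Fin r → Set V) : ℕ := ⨆ v, Nat.card {i // v ∈ F i}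

/-- The fractional domatic number of `G` is `q`: the largest value of `|F| / mult F`, for the nonempty
finite families of dominating sets (repetitions allowed), is `q`. -/
def IsFDOM {V : Type} (G : SimpleGraph V) (q : ℝ) : Prop :=
  IsGreatest {a : ℝ | ∃ (r : ℕ) (F : Fin r → Set V), 0 < r ∧ (∀ i, IsDom G (F i)) ∧
    a = r / (mult F : ℝ)} q

/-- `δ` is the minimum degree of `G` -/
def IsMinDeg {V : Type} (G : SimpleGraph V) (δ : ℕ) : Prop :=
  (∀ v, δ ≤ (G.neighborSet v).ncard) ∧ ∃ v, (G.neighborSet v).ncard = δ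

/-- `H` has an `(n : m)`-colouring: `m`-subsets of an `n`-set for the vertices, disjoint for adjacent
vertices -/
def HasCol {U : Type} (H : SimpleGraph U) (n m : ℕ) : Prop :=
  ∃ c : U → Finset (Fin n), (∀ u, (c u).card = m) ∧ ∀ u v, H.Adj u v → Disjoint (c u) (c v)

theorem card_le_mult {V : Type} {r : ℕ} (F : Fin r → Set V) (v : V) :
    Nat.card {i // v ∈ F i} ≤ mult F := by
  apply le_ciSup (f := fun v => Nat.card {i // v ∈ F i})
  refine ⟨r, ?_⟩
  rintro _ ⟨v, rfl⟩
  have := Nat.card_le_card_of_injective (Subtype.val : {i // v ∈ F i} → Fin r) Subtype.val_injective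
  simpa using this

open scoped Classical in
/-- the members which contain `v` -/
noncomputable def L {V : Type} {r : ℕ} (F : Fin r → Set V) (v : V) : Finset (Fin r) :=
  univ.filter fun i => v ∈ F i

theorem mem_L {V : Type} {r : ℕ} (F : Fin r → Set V) (v : V) (i : Fin r) : i ∈ L F v ↔ v ∈ F i := by
  classical
  simp [L]

theorem L_card {V : Type} {r : ℕ} (F : Fin r → Set V) (v : V) :
    (L F v).card = Nat.card {i // v ∈ F i} := by
  classical
  rw [Nat.card_eq_fintype_card, Fintype.card_subtype]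
  rfl

theorem L_card_le {V : Type} {r : ℕ} (F : Fin r → Set V) (v : V) : (L F v).card ≤ mult F := by
  rw [L_card]
  exact card_le_mult F v

/-- the upper bound -/
theorem family_le {V : Type} [Finite V] (G : SimpleGraph V) (v : V) {r : ℕ}
    (F : Fin r → Set V) (hF : ∀ i, IsDom G (F i)) :
    r ≤ ((G.neighborSet v).ncard + 1) * mult F := by
  classical
  haveI := Fintype.ofFinite V
  have h1 : (univ : Finset (Fin r)) ⊆
      (insert v (G.neighborSet v).toFinset).biUnion (L F) := by
    intro i _
    simp only [mem_biUnion, mem_L, mem_insert, Set.mem_toFinset]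
    rcases hF i v with h | ⟨u, hu, huv⟩
    · exact ⟨v, Or.inl rfl, h⟩
    · exact ⟨u, Or.inr huv.symm, hu⟩
  have h2 := card_le_card h1
  rw [card_univ, Fintype.card_fin] at h2
  refine h2.trans (card_biUnion_le.trans ?_)
  refine (sum_le_card_nsmul _ _ (mult F) ?_).trans ?_
  · intro u _
    exact L_card_le F u
  · rw [smul_eq_mul]
    apply Nat.mul_le_mul_right
    refine (card_insert_le _ _).trans ?_
    rw [Set.ncard_eq_toFinset_card']

theorem deg_ge {V : Type} [Finite V] (G : SimpleGraph V) (v : V) {ι : Type} [Fintype ι] (f : ι → V)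
    (hf : Function.Injective f) (h : ∀ i, G.Adj v (f i)) :
    Fintype.card ι ≤ (G.neighborSet v).ncard := by
  have h1 := Nat.card_le_card_of_injective (fun i => (⟨f i, h i⟩ : G.neighborSet v))
    (fun i j hij => hf (congrArg Subtype.val hij))
  rw [Nat.card_eq_fintype_card] at h1
  exact h1

theorem deg_le {V : Type} [Finite V] (G : SimpleGraph V) (v : V) {ι : Type} [Fintype ι] (f : ι → V)
    (h : ∀ u, G.Adj v u → ∃ i, f i = u) : (G.neighborSet v).ncard ≤ Fintype.card ι := by
  have h1 : ∀ u : G.neighborSet v, ∃ i, f i = u := fun u => h u u.2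
  choose g hg using h1
  have h2 := Nat.card_le_card_of_injective g (fun a b hab => by
    apply Subtype.ext
    rw [← hg a, ← hg b, hab])
  rw [Nat.card_eq_fintype_card (α := ι)] at h2
  exact h2

/-- a set of at most `k * m` elements is covered by `k` sets of at most `m` elements -/
theorem split {Ω : Type} [DecidableEq Ω] (m : ℕ) : ∀ (k : ℕ) (S : Finset Ω), S.card ≤ k * m →
    ∃ P : Fin k → Finset Ω, (∀ i, (P i).card ≤ m) ∧ ∀ ω ∈ S, ∃ i, ω ∈ P i := by
  intro k
  induction k with
  | zero =>
    intro S hS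
    rw [zero_mul] at hS
    refine ⟨fun i => i.elim0, fun i => i.elim0, fun ω hω => ?_⟩
    rw [card_eq_zero.1 (Nat.le_zero.1 hS)] at hω
    exact absurd hω (notMem_empty _)
  | succ k ih =>
    intro S hS
    obtain ⟨T, hTS, hT⟩ := exists_subset_card_eq (s := S) (n := min m S.card) (min_le_right _ _)
    have h1 : (S \ T).card ≤ k * m := by
      rw [card_sdiff_of_subset hTS, hT]
      rw [add_mul, one_mul] at hS
      omega
    obtain ⟨P, hP, hP2⟩ := ih (S \ T) h1
    refine ⟨Fin.cons T P, fun i => ?_, fun ω hω => ?_⟩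
    · refine Fin.cases ?_ (fun j => ?_) i
      · rw [Fin.cons_zero, hT]
        exact min_le_left _ _
      · rw [Fin.cons_succ]
        exact hP j
    · by_cases h : ω ∈ T
      · exact ⟨0, by rw [Fin.cons_zero]; exact h⟩
      · obtain ⟨i, hi⟩ := hP2 ω (mem_sdiff.2 ⟨hω, h⟩)
        exact ⟨i.succ, by rw [Fin.cons_succ]; exact hi⟩

/-! ### The gadget -/

/-- The vertices of `gad δ H`: the vertices `x` of `H`, a clique of `δ` vertices `(x, a)` for each of
them, and a clique of `δ - 1` vertices `(p, b)` for each ordered pair `p` of adjacent vertices. -/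
abbrev VG (δ : ℕ) {U : Type} (H : SimpleGraph U) : Type :=
  U ⊕ ((U × Fin δ) ⊕ ({p : U × U // H.Adj p.1 p.2} × Fin (δ - 1)))

/-- adjacency in `gad δ H` -/
def gadj {δ : ℕ} {U : Type} {H : SimpleGraph U} : VG δ H → VG δ H → Prop
  | .inl _, .inl _ => False
  | .inl x, .inr (.inl s) => s.1 = x
  | .inl x, .inr (.inr s) => s.1.1.1 = x ∨ s.1.1.2 = x
  | .inr (.inl s), .inl x => s.1 = x
  | .inr (.inl s), .inr (.inl s') => s.1 = s'.1 ∧ s.2 ≠ s'.2
  | .inr (.inl _), .inr (.inr _) => False
  | .inr (.inr s), .inl x => s.1.1.1 = x ∨ s.1.1.2 = x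
  | .inr (.inr _), .inr (.inl _) => False
  | .inr (.inr s), .inr (.inr s') => s.1 = s'.1 ∧ s.2 ≠ s'.2

/-- The graph `gad δ H`: `x` is adjacent to the `(x, a)`, the ends of `p` are adjacent to the `(p, b)`,
and the `(x, a)` are a clique for each `x`, the `(p, b)` for each `p`. -/
def gad (δ : ℕ) {U : Type} (H : SimpleGraph U) : SimpleGraph (VG δ H) where
  Adj := gadj
  symm := ⟨by
    rintro (x | s | s) (x' | s' | s') h
    · exact h
    · exact h
    · exact h
    · exact h
    · exact ⟨h.1.symm, h.2.symm⟩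
    · exact h
    · exact h
    · exact h
    · exact ⟨h.1.symm, h.2.symm⟩⟩
  loopless := ⟨by
    rintro (x | s | s) h
    · exact h
    · exact h.2 rfl
    · exact h.2 rfl⟩

variable {δ : ℕ} {U : Type} {H : SimpleGraph U}

theorem deg_inl_ge [Finite U] (x : U) :
    δ ≤ ((gad δ H).neighborSet (Sum.inl x)).ncard := by
  have := deg_ge (gad δ H) (Sum.inl x) (ι := Fin δ) (fun a => Sum.inr (Sum.inl (x, a)))
    (fun a b h => by simpa using h) (fun a => rfl)
  simpa using this

theorem deg_mid_ge [Finite U] (x : U) (a : Fin δ) :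
    δ ≤ ((gad δ H).neighborSet (Sum.inr (Sum.inl (x, a)))).ncard := by
  classical
  have := deg_ge (gad δ H) (Sum.inr (Sum.inl (x, a))) (ι := Fin δ)
    (fun a' => if a' = a then Sum.inl x else Sum.inr (Sum.inl (x, a')))
    (fun a' b h => by
      by_cases h1 : a' = a <;> by_cases h2 : b = a
      · rw [h1, h2]
      · simp [h1, h2] at h
      · simp [h1, h2] at h
      · simpa [h1, h2] using h) (fun a' => by
      by_cases h1 : a' = a
      · simp only [h1, if_true]
        exact rfl
      · simp only [h1, if_false]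
        exact ⟨rfl, fun h => h1 h.symm⟩)
  simpa using this

theorem deg_mid_le [Finite U] (x : U) (a : Fin δ) :
    ((gad δ H).neighborSet (Sum.inr (Sum.inl (x, a)))).ncard ≤ δ := by
  classical
  have := deg_le (gad δ H) (Sum.inr (Sum.inl (x, a))) (ι := Fin δ)
    (fun a' => if a' = a then Sum.inl x else Sum.inr (Sum.inl (x, a'))) ?_
  · simpa using this
  · rintro (x' | s | s) h
    · have h' : x = x' := h
      exact ⟨a, by simp [h']⟩
    · obtain ⟨h1, h2⟩ : x = s.1 ∧ a ≠ s.2 := h
      refine ⟨s.2, ?_⟩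
      simp only [h2.symm, if_false, h1]
    · exact absurd h id

theorem deg_end_ge [Finite U] (hδ : 2 ≤ δ) (p : {p : U × U // H.Adj p.1 p.2}) (b : Fin (δ - 1)) :
    δ ≤ ((gad δ H).neighborSet (Sum.inr (Sum.inr (p, b)))).ncard := by
  classical
  have hne : p.1.1 ≠ p.1.2 := fun h => by
    have := p.2
    rw [h] at this
    exact H.irrefl this
  have := deg_ge (gad δ H) (Sum.inr (Sum.inr (p, b))) (ι := Option (Fin (δ - 1)))
    (fun o => match o with
      | none => Sum.inl p.1.1
      | some b' => if b' = b then Sum.inl p.1.2 else Sum.inr (Sum.inr (p, b')))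
    (fun o o' h => by
      rcases o with _ | b1 <;> rcases o' with _ | b2
      · rfl
      · by_cases h2 : b2 = b
        · simp [h2, hne] at h
        · simp [h2] at h
      · by_cases h1 : b1 = b
        · simp [h1, hne.symm] at h
        · simp [h1] at h
      · by_cases h1 : b1 = b <;> by_cases h2 : b2 = b
        · rw [h1, h2]
        · simp [h1, h2] at h
        · simp [h1, h2] at h
        · simpa [h1, h2] using h) (fun o => by
      rcases o with _ | b1
      · exact Or.inl rfl
      · by_cases h1 : b1 = b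
        · simp only [h1, if_true]
          exact Or.inr rfl
        · simp only [h1, if_false]
          exact ⟨rfl, fun h => h1 h.symm⟩)
  rw [Fintype.card_option, Fintype.card_fin] at this
  omega

theorem gad_minDeg [Finite U] [Nonempty U] (hδ : 2 ≤ δ) : IsMinDeg (gad δ H) δ := by
  refine ⟨?_, ?_⟩
  · rintro (x | ⟨x, a⟩ | ⟨p, b⟩)
    · exact deg_inl_ge x
    · exact deg_mid_ge x a
    · exact deg_end_ge hδ p b
  · obtain ⟨x⟩ := ‹Nonempty U›
    exact ⟨Sum.inr (Sum.inl (x, ⟨0, by omega⟩)), le_antisymm (deg_mid_le x _) (deg_mid_ge x _)⟩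

/-- a family gives a colouring -/
theorem col_of_family [Finite U] (hδ : 2 ≤ δ) {m : ℕ} (F : Fin ((δ + 1) * m) → Set (VG δ H))
    (hF : ∀ i, IsDom (gad δ H) (F i)) (hm : mult F ≤ m) : HasCol H ((δ + 1) * m) m := by
  classical
  have hL : ∀ v, (L F v).card ≤ m := fun v => (L_card_le F v).trans hm
  have hx : ∀ x : U, (L F (Sum.inl x)).card = m := by
    intro x
    have h1 : (univ : Finset (Fin ((δ + 1) * m))) ⊆ L F (Sum.inl x) ∪
        (univ : Finset (Fin δ)).biUnion (fun a => L F (Sum.inr (Sum.inl (x, a)))) := by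
      intro i _
      simp only [mem_union, mem_biUnion, mem_univ, true_and, mem_L]
      rcases hF i (Sum.inr (Sum.inl (x, ⟨0, by omega⟩))) with h | ⟨u, hu, huv⟩
      · exact Or.inr ⟨_, h⟩
      · rcases u with x' | s | s
        · have h' : x = x' := huv
          rw [h']
          exact Or.inl hu
        · have h' : s.1 = x := huv.1
          refine Or.inr ⟨s.2, ?_⟩
          rw [← h']
          exact hu
        · exact absurd huv id
    have h2 := card_le_card h1
    rw [card_univ, Fintype.card_fin] at h2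
    have h3 : ((univ : Finset (Fin δ)).biUnion
        (fun a => L F (Sum.inr (Sum.inl (x, a))))).card ≤ δ * m := by
      refine card_biUnion_le.trans ((sum_le_card_nsmul _ _ m fun a _ => hL _).trans ?_)
      simp
    have h4 := card_union_le (L F (Sum.inl x))
      ((univ : Finset (Fin δ)).biUnion (fun a => L F (Sum.inr (Sum.inl (x, a)))))
    have h5 := hL (Sum.inl x)
    have h6 : δ * m + m ≤ (δ + 1) * m := by rw [add_mul, one_mul]
    have h7 := h6.trans h2
    omega
  refine ⟨fun x => L F (Sum.inl x), hx, fun x x' hxx => ?_⟩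
  let p : {p : U × U // H.Adj p.1 p.2} := ⟨(x, x'), hxx⟩
  have h1 : (univ : Finset (Fin ((δ + 1) * m))) ⊆ (L F (Sum.inl x) ∪ L F (Sum.inl x')) ∪
      (univ : Finset (Fin (δ - 1))).biUnion (fun b => L F (Sum.inr (Sum.inr (p, b)))) := by
    intro i _
    simp only [mem_union, mem_biUnion, mem_univ, true_and, mem_L]
    rcases hF i (Sum.inr (Sum.inr (p, ⟨0, by omega⟩))) with h | ⟨u, hu, huv⟩
    · exact Or.inr ⟨_, h⟩
    · rcases u with y | s | s
      · rcases huv with h' | h'
        · have h' : x = y := h'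
          rw [h']
          exact Or.inl (Or.inl hu)
        · have h' : x' = y := h'
          rw [h']
          exact Or.inl (Or.inr hu)
      · exact absurd huv id
      · have h' : s.1 = p := huv.1
        refine Or.inr ⟨s.2, ?_⟩
        rw [← h']
        exact hu
  have h2 := card_le_card h1
  rw [card_univ, Fintype.card_fin] at h2
  have h3 : ((univ : Finset (Fin (δ - 1))).biUnion
      (fun b => L F (Sum.inr (Sum.inr (p, b))))).card ≤ (δ - 1) * m := by
    refine card_biUnion_le.trans ((sum_le_card_nsmul _ _ m fun a _ => hL _).trans ?_)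
    simp
  have h4 := card_union_le (L F (Sum.inl x) ∪ L F (Sum.inl x'))
    ((univ : Finset (Fin (δ - 1))).biUnion (fun b => L F (Sum.inr (Sum.inr (p, b)))))
  have h5 := card_union_add_card_inter (L F (Sum.inl x)) (L F (Sum.inl x'))
  rw [hx x, hx x'] at h5
  obtain ⟨d, rfl⟩ : ∃ d, δ = d + 2 := ⟨δ - 2, by omega⟩
  have h6 : (d + 2 - 1) * m = d * m + m := by
    rw [show d + 2 - 1 = d + 1 by omega]
    ring
  have h7 : (d + 2 + 1) * m = d * m + 3 * m := by ring
  rw [h6] at h3
  have h8 := h7.ge.trans h2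
  rw [disjoint_iff_inter_eq_empty, ← card_eq_zero]
  show (L F (Sum.inl x) ∩ L F (Sum.inl x')).card = 0
  omega

/-- a colouring gives a family -/
theorem family_of_col [Finite U] [Nonempty U] (hδ : 2 ≤ δ) {m : ℕ} (h : HasCol H ((δ + 1) * m) m) :
    ∃ F : Fin ((δ + 1) * m) → Set (VG δ H), (∀ i, IsDom (gad δ H) (F i)) ∧ mult F ≤ m := by
  classical
  obtain ⟨c, hc, hcd⟩ := h
  have h1 : ∀ x : U, ∃ P : Fin δ → Finset (Fin ((δ + 1) * m)), (∀ i, (P i).card ≤ m) ∧
      ∀ ω ∈ (c x)ᶜ, ∃ i, ω ∈ P i := by
    intro x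
    apply split
    rw [card_compl, hc, Fintype.card_fin, add_mul, one_mul]
    omega
  choose P hP hP2 using h1
  have h2 : ∀ p : {p : U × U // H.Adj p.1 p.2}, ∃ P : Fin (δ - 1) → Finset (Fin ((δ + 1) * m)),
      (∀ i, (P i).card ≤ m) ∧ ∀ ω ∈ (c p.1.1 ∪ c p.1.2)ᶜ, ∃ i, ω ∈ P i := by
    intro p
    apply split
    rw [card_compl, card_union_of_disjoint (hcd _ _ p.2), hc, hc, Fintype.card_fin]
    obtain ⟨d, rfl⟩ : ∃ d, δ = d + 2 := ⟨δ - 2, by omega⟩
    have h6 : (d + 2 - 1) * m = d * m + m := by
      rw [show d + 2 - 1 = d + 1 by omega]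
      ring
    have h7 : (d + 2 + 1) * m = d * m + 3 * m := by ring
    rw [h6, h7]
    omega
  choose Q hQ hQ2 using h2
  let ℓ : VG δ H → Finset (Fin ((δ + 1) * m)) := fun v => match v with
    | .inl x => c x
    | .inr (.inl s) => P s.1 s.2
    | .inr (.inr s) => Q s.1 s.2
  refine ⟨fun i => {v | i ∈ ℓ v}, fun i => ?_, ?_⟩
  · rintro (x | ⟨x, a⟩ | ⟨p, b⟩)
    · by_cases h : i ∈ c x
      · exact Or.inl h
      · obtain ⟨a, ha⟩ := hP2 x i (mem_compl.2 h)
        exact Or.inr ⟨Sum.inr (Sum.inl (x, a)), ha, rfl⟩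
    · by_cases h : i ∈ c x
      · exact Or.inr ⟨Sum.inl x, h, rfl⟩
      · obtain ⟨a', ha⟩ := hP2 x i (mem_compl.2 h)
        by_cases h3 : a' = a
        · rw [h3] at ha
          exact Or.inl ha
        · exact Or.inr ⟨Sum.inr (Sum.inl (x, a')), ha, rfl, h3⟩
    · by_cases h : i ∈ c p.1.1
      · exact Or.inr ⟨Sum.inl p.1.1, h, Or.inl rfl⟩
      · by_cases h' : i ∈ c p.1.2
        · exact Or.inr ⟨Sum.inl p.1.2, h', Or.inr rfl⟩
        · obtain ⟨b', hb⟩ := hQ2 p i (mem_compl.2 (by
            rw [mem_union]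
            rintro (h4 | h4)
            · exact h h4
            · exact h' h4))
          by_cases h3 : b' = b
          · rw [h3] at hb
            exact Or.inl hb
          · exact Or.inr ⟨Sum.inr (Sum.inr (p, b')), hb, rfl, h3⟩
  · haveI : Nonempty (VG δ H) := ⟨Sum.inl (Classical.arbitrary U)⟩
    apply ciSup_le
    intro v
    have h3 : Nat.card {i // v ∈ {v | i ∈ ℓ v}} = (ℓ v).card := by
      rw [Nat.card_eq_fintype_card, Fintype.card_subtype]
      congr 1
      ext i
      simp
    rw [h3]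
    rcases v with x | s | s
    · exact (hc x).le
    · exact hP s.1 s.2
    · exact hQ s.1 s.2

/-- the fractional domatic number of `gad δ H` is `δ + 1` iff `H` has a colouring -/
theorem gad_isFDOM [Finite U] [Nonempty U] (hδ : 2 ≤ δ) :
    IsFDOM (gad δ H) (δ + 1) ↔ ∃ m : ℕ, 0 < m ∧ HasCol H ((δ + 1) * m) m := by
  constructor
  · rintro ⟨⟨r, F, hr, hF, hq⟩, -⟩
    have hm : mult F ≠ 0 := by
      intro h0
      rw [h0, Nat.cast_zero, div_zero] at hq
      have : (0 : ℝ) ≤ δ := Nat.cast_nonneg δ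
      linarith
    have hm' : (mult F : ℝ) ≠ 0 := by exact_mod_cast hm
    have h1 : r = (δ + 1) * mult F := by
      rw [eq_div_iff hm'] at hq
      exact_mod_cast hq.symm
    refine ⟨mult F, Nat.pos_of_ne_zero hm, ?_⟩
    generalize hM : mult F = M at h1
    subst h1
    exact col_of_family hδ F hF hM.le
  · rintro ⟨m, hm, h⟩
    obtain ⟨F, hF, hFm⟩ := family_of_col hδ h
    obtain ⟨x⟩ := ‹Nonempty U›
    have hdeg := deg_mid_le (H := H) x (⟨0, by omega⟩ : Fin δ)
    have hub : ∀ {r : ℕ} (F' : Fin r → Set (VG δ H)), (∀ i, IsDom (gad δ H) (F' i)) →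
        r ≤ (δ + 1) * mult F' := by
      intro r F' hF'
      exact (family_le (gad δ H) (Sum.inr (Sum.inl (x, ⟨0, by omega⟩))) F' hF').trans
        (Nat.mul_le_mul_right _ (Nat.succ_le_succ hdeg))
    have h1 : mult F = m := by
      refine le_antisymm hFm ?_
      exact Nat.le_of_mul_le_mul_left (hub F hF) (by omega)
    refine ⟨⟨(δ + 1) * m, F, by positivity, hF, ?_⟩, ?_⟩
    · rw [h1]
      have : (m : ℝ) ≠ 0 := by exact_mod_cast hm.ne'
      push_cast
      field_simp
    · rintro q ⟨r, F', hr, hF', rfl⟩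
      have h2 := hub F' hF'
      have hm' : 0 < mult F' := by
        by_contra h0
        have : mult F' = 0 := by omega
        rw [this, mul_zero] at h2
        omega
      rw [div_le_iff₀ (by exact_mod_cast hm')]
      exact_mod_cast h2

end Pool.Agent.P8H62.FD
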