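import Pool.Agent.P8H62.FD.Gad
import Pool.Agent.H152.HR.Ramsey

/-!
# The peak graph: fractional chromatic number at most three, no colouring of bounded multiplicity
-/

set_option autoImplicit false
set_option linter.all false

open Finset

namespace Pool.Agent.P8H62.FD

/-- The graph on the triples `x = (x 0, x 1, x 2)` of different elements of `Fin N`, in which
`(a, b, c)` and `(b, c, d)` are adjacent. -/
def peak (N : ℕ) : SimpleGraph (Fin 3 ↪ Fin N) where
  Adj x y := (x 1 = y 0 ∧ x 2 = y 1) ∨ (y 1 = x 0 ∧ y 2 = x 1)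
  symm := ⟨fun x y h => h.symm⟩
  loopless := ⟨by
    rintro x (h | h)
    · exact absurd (x.injective h.1) (by decide)
    · exact absurd (x.injective h.1) (by decide)⟩

variable {N : ℕ}

/-- the permutations for which the place `i` has the largest value -/
def B (x : Fin 3 ↪ Fin N) (i : Fin 3) : Finset (Equiv.Perm (Fin N)) :=
  univ.filter fun σ => ∀ j, j ≠ i → σ (x j) < σ (x i)

theorem mem_B (x : Fin 3 ↪ Fin N) (i : Fin 3) (σ : Equiv.Perm (Fin N)) :
    σ ∈ B x i ↔ ∀ j, j ≠ i → σ (x j) < σ (x i) := by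
  simp [B]

theorem B_card_le (x : Fin 3 ↪ Fin N) (i k : Fin 3) : (B x i).card ≤ (B x k).card := by
  refine card_le_card_of_injOn (fun σ => σ * Equiv.swap (x i) (x k)) ?_ ?_
  · intro σ hσ
    have h := (mem_B x i σ).1 (mem_coe.1 hσ)
    refine mem_coe.2 ((mem_B x k _).2 fun j hj => ?_)
    rw [Equiv.Perm.mul_apply, Equiv.Perm.mul_apply, Function.Embedding.swap_apply,
      Function.Embedding.swap_apply, Equiv.swap_apply_right]
    apply h
    intro h1
    apply hj
    have h2 := congrArg (Equiv.swap i k) h1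
    rw [Equiv.swap_apply_self, Equiv.swap_apply_left] at h2
    exact h2
  · intro σ _ τ _ h
    exact mul_right_cancel h

theorem univ_le (x : Fin 3 ↪ Fin N) :
    Fintype.card (Equiv.Perm (Fin N)) ≤ 3 * (B x 1).card := by
  have h1 : (univ : Finset (Equiv.Perm (Fin N))) ⊆ (univ : Finset (Fin 3)).biUnion (B x) := by
    intro σ _
    rw [mem_biUnion]
    obtain ⟨i, hi⟩ := Finite.exists_max (fun i => σ (x i))
    refine ⟨i, mem_univ _, (mem_B x i σ).2 fun j hj => lt_of_le_of_ne (hi j) ?_⟩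
    intro h
    exact hj (x.injective (σ.injective h))
  have h2 := card_le_card h1
  rw [card_univ] at h2
  refine h2.trans (card_biUnion_le.trans ?_)
  refine (sum_le_card_nsmul _ _ (B x 1).card fun i _ => B_card_le x i 1).trans ?_
  simp

/-- the peak graph has a `((δ + 1) m : m)`-colouring, `m = N!` -/
theorem peak_col (N δ : ℕ) (hδ : 2 ≤ δ) : ∃ m : ℕ, 0 < m ∧ HasCol (peak N) ((δ + 1) * m) m := by
  classical
  set m := Fintype.card (Equiv.Perm (Fin N)) with hm
  refine ⟨m, Fintype.card_pos, ?_⟩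
  have hcard : Fintype.card (Equiv.Perm (Fin N) × Fin (δ + 1)) = (δ + 1) * m := by
    rw [Fintype.card_prod, Fintype.card_fin, mul_comm]
  let e : Equiv.Perm (Fin N) × Fin (δ + 1) ≃ Fin ((δ + 1) * m) := Fintype.equivFinOfCardEq hcard
  have h1 : ∀ x : Fin 3 ↪ Fin N, ∃ T ⊆ (B x 1) ×ˢ (univ : Finset (Fin (δ + 1))), T.card = m := by
    intro x
    apply exists_subset_card_eq
    rw [card_product, card_univ, Fintype.card_fin]
    refine (univ_le x).trans ?_
    rw [mul_comm]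
    exact Nat.mul_le_mul_left _ (by omega)
  choose T hT hTm using h1
  refine ⟨fun x => (T x).map e.toEmbedding, fun x => by rw [card_map, hTm], ?_⟩
  have key : ∀ x y : Fin 3 ↪ Fin N, x 1 = y 0 ∧ x 2 = y 1 → Disjoint (T x) (T y) := by
    rintro x y ⟨h1, h2⟩
    rw [disjoint_left]
    rintro ⟨σ, a⟩ hx hy
    have hx' := (mem_B x 1 σ).1 (mem_product.1 (hT x hx)).1 2 (by decide)
    have hy' := (mem_B y 1 σ).1 (mem_product.1 (hT y hy)).1 0 (by decide)
    rw [← h1, ← h2] at hy'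
    exact lt_asymm hx' hy'
  intro x y hxy
  rw [disjoint_map]
  rcases hxy with h | h
  · exact key x y h
  · exact (key y x h).symm

/-- for large `N` there is no colouring with a bounded multiplicity -/
theorem peak_no_col (δ T : ℕ) : ∃ N : ℕ, 3 ≤ N ∧ ∀ m : ℕ, 0 < m → m ≤ T →
    ¬ HasCol (peak N) ((δ + 1) * m) m := by
  classical
  obtain ⟨N0, hN0⟩ := H152HR.ramsey (Finset (Fin ((δ + 1) * T))) 3 4
  obtain ⟨N, hN⟩ : ∃ N, N = N0 + 3 := ⟨_, rfl⟩
  refine ⟨N, by omega, ?_⟩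
  rintro m hm hmT ⟨c, hc, hcd⟩
  let g : Fin ((δ + 1) * m) ↪ Fin ((δ + 1) * T) :=
    Fin.castLEEmb (Nat.mul_le_mul_left _ hmT)
  let C : Finset ℕ → Finset (Fin ((δ + 1) * T)) := fun J =>
    if h : ∃ x : Fin 3 ↪ Fin N, StrictMono (fun i => (x i : ℕ)) ∧
      univ.image (fun i => (x i : ℕ)) = J then (c h.choose).map g else ∅
  have hC : ∀ x : Fin 3 ↪ Fin N, StrictMono (fun i => (x i : ℕ)) →
      C (univ.image (fun i => (x i : ℕ))) = (c x).map g := by
    intro x hx
    have hex : ∃ x' : Fin 3 ↪ Fin N, StrictMono (fun i => (x' i : ℕ)) ∧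
        univ.image (fun i => (x' i : ℕ)) = univ.image (fun i => (x i : ℕ)) := ⟨x, hx, rfl⟩
    have h1 : C (univ.image (fun i => (x i : ℕ))) = (c hex.choose).map g := dif_pos hex
    rw [h1]
    obtain ⟨h2, h3⟩ := hex.choose_spec
    have h4 : (fun i => (hex.choose i : ℕ)) = fun i => (x i : ℕ) := by
      refine (h2.range_inj hx).1 ?_
      have h5 := congrArg (fun s : Finset ℕ => (s : Set ℕ)) h3
      simpa only [coe_image, coe_univ, Set.image_univ] using h5
    have h5 : hex.choose = x := by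
      ext i
      exact congrFun h4 i
    rw [h5]
  obtain ⟨Q, hQ, hQ4, col, hcol⟩ := hN0 C (range N) (by rw [card_range]; omega)
  let q : Fin 4 ↪o ℕ := Q.orderEmbOfFin hQ4
  have hqN : ∀ i, q i < N := fun i => mem_range.1 (hQ (Q.orderEmbOfFin_mem hQ4 i))
  let x : Fin 3 ↪ Fin N := ⟨fun i => ⟨q i.castSucc, hqN _⟩, fun i j h => by
    exact Fin.castSucc_injective _ (q.injective (Fin.mk.inj_iff.1 h))⟩
  let y : Fin 3 ↪ Fin N := ⟨fun i => ⟨q i.succ, hqN _⟩, fun i j h => by
    exact Fin.succ_injective _ (q.injective (Fin.mk.inj_iff.1 h))⟩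
  have hx : StrictMono (fun i => (x i : ℕ)) := fun i j h =>
    q.strictMono (Fin.castSucc_lt_castSucc_iff.2 h)
  have hy : StrictMono (fun i => (y i : ℕ)) := fun i j h =>
    q.strictMono (Fin.succ_lt_succ_iff.2 h)
  have hadj : (peak N).Adj x y := Or.inl ⟨rfl, rfl⟩
  have hsub : ∀ z : Fin 3 ↪ Fin N, (∀ i, (z i : ℕ) ∈ Q) → StrictMono (fun i => (z i : ℕ)) →
      (c z).map g = col := by
    intro z hz hzm
    rw [← hC z hzm]
    apply hcol
    · intro a ha
      obtain ⟨i, -, rfl⟩ := mem_image.1 ha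
      exact hz i
    · rw [card_image_of_injective _ hzm.injective]
      simp
  have h1 := hsub x (fun i => Q.orderEmbOfFin_mem hQ4 _) hx
  have h2 := hsub y (fun i => Q.orderEmbOfFin_mem hQ4 _) hy
  have h3 : c x = c y := map_injective g (h1.trans h2.symm)
  have h4 := hcd x y hadj
  rw [h3, disjoint_self, bot_eq_empty] at h4
  have h5 := hc y
  rw [h4, card_empty] at h5
  omega

/-- **The theorem.** -/
theorem main2 (δ : ℕ) (hδ : 2 ≤ δ) :
    (∀ (U : Type) [Finite U] [Nonempty U] (H : SimpleGraph U), IsMinDeg (gad δ H) δ ∧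
      (IsFDOM (gad δ H) (δ + 1) ↔ ∃ m : ℕ, 0 < m ∧ HasCol H ((δ + 1) * m) m) ∧
      ∀ m : ℕ, (∃ F : Fin ((δ + 1) * m) → Set (VG δ H), (∀ i, IsDom (gad δ H) (F i)) ∧ mult F ≤ m) ↔
        HasCol H ((δ + 1) * m) m) ∧
    ∀ T : ℕ, ∃ (U : Type) (_ : Finite U) (_ : Nonempty U) (H : SimpleGraph U),
      IsFDOM (gad δ H) (δ + 1) ∧
      ∀ (r : ℕ) (F : Fin r → Set (VG δ H)), 0 < r → (∀ i, IsDom (gad δ H) (F i)) → mult F ≤ T →
        (r : ℝ) / mult F < δ + 1 := by
  refine ⟨fun U _ _ H => ⟨gad_minDeg hδ, gad_isFDOM hδ, fun m =>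
    ⟨fun ⟨F, hF, hm⟩ => col_of_family hδ F hF hm, family_of_col hδ⟩⟩, fun T => ?_⟩
  obtain ⟨N, hN, hno⟩ := peak_no_col δ T
  haveI : Nonempty (Fin 3 ↪ Fin N) := ⟨Fin.castLEEmb hN⟩
  refine ⟨Fin 3 ↪ Fin N, inferInstance, inferInstance, peak N,
    (gad_isFDOM hδ).2 (peak_col N δ hδ), ?_⟩
  intro r F hr hF hT
  by_contra hcon
  push Not at hcon
  obtain ⟨x⟩ := ‹Nonempty (Fin 3 ↪ Fin N)›
  have h1 : r ≤ (δ + 1) * mult F :=
    (family_le (gad δ (peak N)) (Sum.inr (Sum.inl (x, ⟨0, by omega⟩))) F hF).trans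
      (Nat.mul_le_mul_right _ (Nat.succ_le_succ (deg_mid_le x _)))
  have hm : 0 < mult F := by
    by_contra h0
    have : mult F = 0 := by omega
    rw [this, mul_zero] at h1
    omega
  rw [le_div_iff₀ (by exact_mod_cast hm)] at hcon
  have h2 : (δ + 1) * mult F ≤ r := by exact_mod_cast hcon
  have h3 : r = (δ + 1) * mult F := le_antisymm h1 h2
  refine hno (mult F) hm hT ?_
  generalize hM : mult F = M at h3
  subst h3
  exact col_of_family hδ F hF hM.le

end Pool.Agent.P8H62.FD
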